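import Pool.Agent.Work.MP_db9399_ts.Final
import Pool.Agent.Work.MP_db9399_ts_helper75.Bas

/-!
# MP_db9399, TSPLIT, block OFH: the offsets of the vertices of type `fr` (helper15)
-/

set_option autoImplicit false
set_option linter.unusedSectionVars false

namespace Pool.Agent.Work.MP_db9399_ts.helper15

open Finset Classical Filter
open Pool.Agent.Work.MP_db9399_all (nb)
open Pool.Agent.Work.MP_db9399_clj.helper75 (OO blk nB eE mem_nb dcount mem_blk mem_OO eE_nonneg)
open Pool.Agent.Work.MP_db9399_ts.helper75 (th_O h3_facts)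

universe u

variable {W B : Type u} [Fintype W] [Fintype B] {X : Dat W B} {c : ℝ} {M : ℕ} {C ζ θ : ℝ}

theorem n_nonneg (x : W) (b : B) : 0 ≤ X.n x b := by
  unfold Dat.n nB
  positivity

/-- number of the edges between `O` and a block -/
theorem sum_n (hE : Env X M C ζ θ c) (hζ : 0 ≤ ζ) (b : B) :
    ∑ x ∈ OO X.bl, X.n x b ≤ ζ * C * X.d ^ 2 := by
  have h1 : ∑ x ∈ OO X.bl, X.n x b = ∑ x ∈ OO X.bl, ((nb X.Th x ∩ blk X.bl b).card : ℝ) := by
    refine sum_congr rfl fun x hx => ?_
    unfold Dat.n nB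
    congr 2
    ext v
    rw [mem_inter, mem_inter, mem_nb, mem_nb]
    refine and_congr_left fun _ => ?_
    rw [SimpleGraph.adj_comm, SimpleGraph.adj_comm X.Th]
    exact (th_O hE (mem_OO.1 hx)).symm
  rw [h1, dcount]
  have h2 : ∑ w ∈ blk X.bl b, ((nb X.Th w ∩ OO X.bl).card : ℝ) ≤
      ∑ w ∈ blk X.bl b, ζ * (X.d : ℝ) := by
    refine sum_le_sum fun w hw => ?_
    have h3 := hE.thn w (by rw [mem_blk.1 hw]; exact Option.some_ne_none _)
    refine le_trans ?_ h3
    unfold Dat.td
    exact_mod_cast card_le_card inter_subset_left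
  refine h2.trans ?_
  rw [sum_const, nsmul_eq_mul]
  have h4 := (hE.sz b).2
  have h5 : 0 ≤ ζ * (X.d : ℝ) := by positivity
  nlinarith [mul_le_mul_of_nonneg_right h4 h5]

/-- the vertices with a neighbour in a block -/
theorem card_adj (hE : Env X M C ζ θ c) (b : B) :
    ((univ.filter fun x => (nb X.G x ∩ blk X.bl b).Nonempty).card : ℝ) ≤ C * X.d ^ 2 := by
  have h1 : univ.filter (fun x => (nb X.G x ∩ blk X.bl b).Nonempty) ⊆
      (blk X.bl b).biUnion fun v => nb X.G v := by
    intro x hx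
    obtain ⟨v, hv⟩ := (mem_filter.1 hx).2
    rw [mem_inter, mem_nb] at hv
    exact mem_biUnion.2 ⟨v, hv.2, mem_nb.2 hv.1.symm⟩
  have h2 : (univ.filter fun x => (nb X.G x ∩ blk X.bl b).Nonempty).card ≤
      (blk X.bl b).card * X.d := by
    refine (card_le_card h1).trans (card_biUnion_le_card_mul _ _ _ fun v _ => ?_)
    exact (hE.reg v).le
  have h3 : ((univ.filter fun x => (nb X.G x ∩ blk X.bl b).Nonempty).card : ℝ) ≤
      ((blk X.bl b).card : ℝ) * X.d := by exact_mod_cast h2
  have h4 := (hE.sz b).2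
  have h5 : (0 : ℝ) ≤ X.d := Nat.cast_nonneg _
  nlinarith [mul_le_mul_of_nonneg_right h4 h5]

/-- the blocks with a neighbour of `x` -/
theorem card_blocks (hE : Env X M C ζ θ c) (x : W) :
    (univ.filter fun b => (nb X.G x ∩ blk X.bl b).Nonempty).card ≤ X.d := by
  rw [← hE.reg x]
  have h : ∀ b ∈ univ.filter (fun b => (nb X.G x ∩ blk X.bl b).Nonempty),
      ∃ v, v ∈ nb X.G x ∧ X.bl v = some b := by
    intro b hb
    obtain ⟨v, hv⟩ := (mem_filter.1 hb).2
    rw [mem_inter, mem_blk] at hv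
    exact ⟨v, hv⟩
  have : Nonempty W := ⟨x⟩
  choose! f hf using h
  refine card_le_card_of_injOn f (fun b hb => mem_coe.2 (hf b (mem_coe.1 hb)).1) ?_
  intro b hb b' hb' h
  have h1 := (hf b (mem_coe.1 hb)).2
  have h2 := (hf b' (mem_coe.1 hb')).2
  rw [h, h2] at h1
  exact (Option.some.inj h1).symm

theorem rr_inl (b : B) (x : W) : X.rr c (Sum.inl b) x =
    if X.fr x ∧ ¬ X.h3 c x ∧ X.pb c x b then X.n x b / X.fx c x else 0 := rfl

theorem rr_inr (b : B) (x : W) : X.rr c (Sum.inr b) x =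
    if X.h3 c x then ((X.sc c x ∩ blk X.bl b).card : ℝ) / ((X.sc c x).card : ℝ) else 0 := rfl

theorem rr_supp (q : B ⊕ B) (x : W) (h : X.rr c q x ≠ 0) :
    (nb X.G x ∩ blk X.bl (Sum.elim id id q)).Nonempty := by
  rcases q with b | b
  · rw [rr_inl] at h
    split_ifs at h with h1
    · by_contra hcon
      rw [not_nonempty_iff_eq_empty] at hcon
      apply h
      have : X.n x b = 0 := by
        unfold Dat.n nB
        rw [show nb X.G x ∩ blk X.bl b = ∅ from hcon]
        simp
      rw [this, zero_div]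
    · exact absurd rfl h
  · rw [rr_inr] at h
    split_ifs at h with h1
    · by_contra hcon
      rw [not_nonempty_iff_eq_empty] at hcon
      apply h
      have : X.sc c x ∩ blk X.bl b = ∅ := by
        rw [eq_empty_iff_forall_notMem]
        intro v hv
        rw [mem_inter] at hv
        have : v ∈ nb X.G x ∩ blk X.bl b := mem_inter.2 ⟨(mem_filter.1 hv.1).1, hv.2⟩
        rw [show nb X.G x ∩ blk X.bl b = ∅ from hcon] at this
        simp at this
      rw [this, card_empty, Nat.cast_zero, zero_div]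
    · exact absurd rfl h

theorem rr_nonneg (q : B ⊕ B) (x : W) : 0 ≤ X.rr c q x := by
  rcases q with b | b
  · rw [rr_inl]
    split_ifs
    · refine div_nonneg (n_nonneg _ _) ?_
      unfold Dat.fx
      exact sum_nonneg fun _ _ => n_nonneg _ _
    · exact le_rfl
  · rw [rr_inr]
    split_ifs
    · positivity
    · exact le_rfl

theorem rr_le (q : B ⊕ B) (x : W) : X.rr c q x ≤ 1 := by
  rcases q with b | b
  · rw [rr_inl]
    split_ifs with h
    · refine div_le_one_of_le₀ ?_ ?_
      · unfold Dat.fx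
        exact single_le_sum (f := fun b => X.n x b) (fun _ _ => n_nonneg _ _)
          (mem_filter.2 ⟨mem_univ _, h.2.2⟩)
      · unfold Dat.fx
        exact sum_nonneg fun _ _ => n_nonneg _ _
    · exact zero_le_one
  · rw [rr_inr]
    split_ifs with h
    · refine div_le_one_of_le₀ ?_ (by positivity)
      exact_mod_cast card_le_card inter_subset_left
    · exact zero_le_one

/-- `rr` is at most `8 / d` times the number of the neighbours -/
theorem rr_le_n (hE : Env X M C ζ θ c) (hd : 0 < X.d)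
    (hM : (M : ℝ) * (X.d : ℝ) ^ (c / 16) < X.d / 2) (hd4 : (X.d : ℝ) ^ (c / 4) ≤ 3 / 8 * X.d)
    (q : B ⊕ B) (x : W) : X.rr c q x ≤
      if X.bl x = none then 8 / X.d * X.n x (Sum.elim id id q) else 0 := by
  have hd0 : (0 : ℝ) < X.d := by exact_mod_cast hd
  rcases q with b | b
  · rw [rr_inl]
    split_ifs with h h1 h1
    · have h2 : (X.d : ℝ) / 8 ≤ X.fx c x := by
        by_contra h3
        exact h.2.1 ⟨h.1, not_le.1 h3⟩
      have h3 : 0 < X.fx c x := by linarith
      rw [div_le_iff₀ h3]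
      have h4 := n_nonneg (X := X) x b
      have h5 : 1 ≤ 8 / X.d * X.fx c x := by
        rw [div_mul_eq_mul_div, le_div_iff₀ hd0]
        linarith
      have h6 : 8 / (X.d : ℝ) * X.n x (Sum.elim id id (Sum.inl b)) * X.fx c x =
        X.n x b * (8 / X.d * X.fx c x) := by
        simp only [Sum.elim_inl, id_eq]
        ring
      rw [h6]
      nlinarith
    · exact absurd h.1.1 h1
    · exact mul_nonneg (by positivity) (n_nonneg _ _)
    · exact le_rfl
  · rw [rr_inr]
    split_ifs with h h1 h1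
    · obtain ⟨_, _, h2, _, _⟩ := h3_facts hE hd hM hd4 h
      have h3 : (0 : ℝ) < ((X.sc c x).card : ℝ) := by linarith
      rw [div_le_iff₀ h3]
      have h4 : ((X.sc c x ∩ blk X.bl b).card : ℝ) ≤ X.n x b := by
        unfold Dat.n nB
        exact_mod_cast card_le_card (inter_subset_inter_right (filter_subset _ _))
      have h4' := n_nonneg (X := X) x b
      have h5 : 1 ≤ 8 / X.d * ((X.sc c x).card : ℝ) := by
        rw [div_mul_eq_mul_div, le_div_iff₀ hd0]
        linarith
      have h6 : 8 / (X.d : ℝ) * X.n x (Sum.elim id id (Sum.inr b)) * ((X.sc c x).card : ℝ) =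
        X.n x b * (8 / X.d * ((X.sc c x).card : ℝ)) := by
        simp only [Sum.elim_inr, id_eq]
        ring
      rw [h6]
      nlinarith
    · exact absurd (h3_facts hE hd hM hd4 h).1 h1
    · exact mul_nonneg (by positivity) (n_nonneg _ _)
    · exact le_rfl

theorem sum_rr (hE : Env X M C ζ θ c) (hζ : 0 ≤ ζ) (hd : 0 < X.d)
    (hM : (M : ℝ) * (X.d : ℝ) ^ (c / 16) < X.d / 2) (hd4 : (X.d : ℝ) ^ (c / 4) ≤ 3 / 8 * X.d)
    (q : B ⊕ B) : ∑ x, |X.rr c q x| ≤ 8 * (ζ * C) * X.d := by
  have hd0 : (0 : ℝ) < X.d := by exact_mod_cast hd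
  calc ∑ x, |X.rr c q x| = ∑ x, X.rr c q x := sum_congr rfl fun x _ => abs_of_nonneg (rr_nonneg _ _)
    _ ≤ ∑ x, (if X.bl x = none then 8 / X.d * X.n x (Sum.elim id id q) else 0) :=
        sum_le_sum fun x _ => rr_le_n hE hd hM hd4 q x
    _ = 8 / X.d * ∑ x ∈ OO X.bl, X.n x (Sum.elim id id q) := by
        rw [← sum_filter, mul_sum]
        rfl
    _ ≤ 8 / X.d * (ζ * C * X.d ^ 2) :=
        mul_le_mul_of_nonneg_left (sum_n hE hζ _) (by positivity)
    _ = 8 * (ζ * C) * X.d := by
        field_simp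

theorem stmt_OFH : Stmt_OFH.{u} := by
  intro M C ε K2 hC hε hK
  refine ⟨min 1 (ε / (16 * C * (K2 + 1))), ?_, ?_⟩
  · have : 0 < K2 + 1 := by linarith
    have : 0 < C := by linarith
    exact lt_min one_pos (by positivity)
  intro c hc hc1
  set ζ0 := min 1 (ε / (16 * C * (K2 + 1))) with hζ0
  have hC0 : 0 < C := by linarith
  have hK1 : 0 < K2 + 1 := by linarith
  have hζ : 0 < ζ0 := lt_min one_pos (by positivity)
  have hζ1 : ζ0 ≤ 1 := min_le_left _ _
  have hζ2 : 16 * C * (K2 + 1) * ζ0 ≤ ε := by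
    have h := min_le_right 1 (ε / (16 * C * (K2 + 1)))
    rw [← hζ0, le_div_iff₀ (by positivity)] at h
    linarith
  -- growth
  have g1 : Tendsto (fun x : ℝ => x ^ (-(1 - c / 16))) atTop (nhds 0) :=
    tendsto_rpow_neg_atTop (by linarith)
  have g2 : Tendsto (fun x : ℝ => x ^ (-(1 - c / 4))) atTop (nhds 0) :=
    tendsto_rpow_neg_atTop (by linarith)
  have g3 : Tendsto (fun x : ℝ => x ^ (-(1 / 100) : ℝ)) atTop (nhds 0) :=
    tendsto_rpow_neg_atTop (by norm_num)
  have hM1 : (0 : ℝ) < M + 1 := by positivity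
  have e1 := (g1.comp tendsto_natCast_atTop_atTop).eventually
    (gt_mem_nhds (show (0 : ℝ) < 1 / (2 * (M + 1)) by positivity))
  have e2 := (g2.comp tendsto_natCast_atTop_atTop).eventually
    (gt_mem_nhds (show (0 : ℝ) < 3 / 8 by norm_num))
  have e3 := (g3.comp tendsto_natCast_atTop_atTop).eventually
    (gt_mem_nhds (show (0 : ℝ) < min (ε / 2) (1 / (K2 + 5)) by
      refine lt_min (by positivity) (by positivity)))
  have e4 := tendsto_natCast_atTop_atTop.eventually (eventually_ge_atTop (C + 2 : ℝ))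
  obtain ⟨d0, hd0⟩ := eventually_atTop.1 (((e1.and e2).and e3).and e4)
  refine ⟨d0, ?_⟩
  intro W B _ _ X N hd hE
  obtain ⟨⟨⟨f1, f2⟩, f3⟩, f4⟩ := hd0 X.d hd
  simp only [Function.comp_apply] at f1 f2 f3
  have hdp : (0 : ℝ) < X.d := by linarith
  have hdn : 0 < X.d := by exact_mod_cast hdp
  have hd1 : (1 : ℝ) ≤ X.d := by linarith
  have hM : (M : ℝ) * (X.d : ℝ) ^ (c / 16) < X.d / 2 := by
    have h1 : (X.d : ℝ) ^ (c / 16) = X.d * (X.d : ℝ) ^ (-(1 - c / 16)) := by
      rw [← Real.rpow_one_add' hdp.le (by intro h; linarith)]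
      congr 1
      ring
    have h2 : (M + 1 : ℝ) * (X.d : ℝ) ^ (-(1 - c / 16)) < 1 / 2 := by
      rw [lt_div_iff₀ (by positivity)] at f1
      linarith
    have h3 : (0 : ℝ) ≤ (X.d : ℝ) ^ (-(1 - c / 16)) := by positivity
    rw [h1]
    nlinarith
  have hd4 : (X.d : ℝ) ^ (c / 4) ≤ 3 / 8 * X.d := by
    have h1 : (X.d : ℝ) ^ (c / 4) = X.d * (X.d : ℝ) ^ (-(1 - c / 4)) := by
      rw [← Real.rpow_one_add' hdp.le (by intro h; linarith)]
      congr 1
      ring
    rw [h1]
    nlinarith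
  have hS := fun q => sum_rr hE hζ.le hdn hM hd4 q
  have hd3 : (X.d : ℝ) ^ (3 : ℝ) = (X.d : ℝ) ^ 3 := by
    rw [← Real.rpow_natCast]
    norm_num
  refine ⟨⟨fun q => ?_, fun x => ?_⟩, fun q x => ?_, fun q => ?_, fun hN1 hN2 => ?_⟩
  · have h1 : univ.filter (fun x => X.rr c q x ≠ 0) ⊆
        univ.filter (fun x => (nb X.G x ∩ blk X.bl (Sum.elim id id q)).Nonempty) := by
      intro x hx
      exact mem_filter.2 ⟨mem_univ _, rr_supp q x (mem_filter.1 hx).2⟩
    have h2 : ((univ.filter fun x => X.rr c q x ≠ 0).card : ℝ) ≤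
        ((univ.filter fun x => (nb X.G x ∩ blk X.bl (Sum.elim id id q)).Nonempty).card : ℝ) := by
      exact_mod_cast card_le_card h1
    have h3 := card_adj hE (Sum.elim id id q)
    rw [hd3]
    have h4 : C * (X.d : ℝ) ^ 2 ≤ X.d * (X.d : ℝ) ^ 2 :=
      mul_le_mul_of_nonneg_right (by linarith) (by positivity)
    nlinarith
  · have h1 : univ.filter (fun q => X.rr c q x ≠ 0) ⊆
        (univ.filter (fun b => (nb X.G x ∩ blk X.bl b).Nonempty)).image Sum.inl ∪
        (univ.filter (fun b => (nb X.G x ∩ blk X.bl b).Nonempty)).image Sum.inr := by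
      intro q hq
      have h2 := rr_supp q x (mem_filter.1 hq).2
      rcases q with b | b
      · exact mem_union_left _ (mem_image.2 ⟨b, mem_filter.2 ⟨mem_univ _, h2⟩, rfl⟩)
      · exact mem_union_right _ (mem_image.2 ⟨b, mem_filter.2 ⟨mem_univ _, h2⟩, rfl⟩)
    have h2 := (card_le_card h1).trans (card_union_le _ _)
    have h3 := h2.trans (Nat.add_le_add card_image_le card_image_le)
    have h4 := card_blocks hE x
    have h5 : (univ.filter fun q => X.rr c q x ≠ 0).card ≤ 2 * X.d := by omega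
    have h6 : ((univ.filter fun q => X.rr c q x ≠ 0).card : ℝ) ≤ 2 * X.d := by exact_mod_cast h5
    rw [hd3]
    have h7 : (2 : ℝ) ≤ (X.d : ℝ) ^ 2 := by nlinarith
    nlinarith
  · rw [abs_of_nonneg (rr_nonneg _ _)]
    have := rr_le (X := X) (c := c) q x
    linarith
  · refine (hS q).trans ?_
    have : ζ0 * C ≤ C := by nlinarith
    nlinarith
  · have key : ∀ q : B ⊕ B, |∑ x, X.rr c q x * (if X.fr x then K2 - N x else 0)| ≤ ε * X.d := by
      intro q
      have h1 : ∑ x, X.rr c q x * (if X.fr x then K2 - N x else 0) =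
          K2 * ∑ x, X.rr c q x - ∑ x, X.rr c q x * N x := by
        rw [mul_sum, ← sum_sub_distrib]
        refine sum_congr rfl fun x _ => ?_
        split_ifs with h
        · ring
        · have h0 : X.rr c q x = 0 := by
            rcases q with b | b
            · rw [rr_inl]
              exact if_neg fun h2 => h h2.1
            · rw [rr_inr]
              exact if_neg fun h2 => h h2.1
          rw [h0]
          ring
      rw [h1]
      have h2 := hN2 q
      have h3 : |K2 * ∑ x, X.rr c q x| ≤ K2 * (8 * (ζ0 * C) * X.d) := by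
        rw [abs_mul, abs_of_nonneg hK]
        exact mul_le_mul_of_nonneg_left ((abs_sum_le_sum_abs _ _).trans (hS q)) hK
      have h4 : K2 * (8 * (ζ0 * C) * X.d) ≤ ε / 2 * X.d := by
        have h5 : K2 * (8 * (ζ0 * C)) ≤ ε / 2 := by
          have : 0 ≤ C * ζ0 := by positivity
          nlinarith
        nlinarith
      have h5 : (X.d : ℝ) ^ (99 / 100 : ℝ) ≤ ε / 2 * X.d := by
        have h6 : (X.d : ℝ) ^ (99 / 100 : ℝ) = X.d * (X.d : ℝ) ^ (-(1 / 100) : ℝ) := by
          rw [← Real.rpow_one_add' hdp.le (by norm_num)]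
          norm_num
        rw [h6]
        have h7 := f3.trans_le (min_le_left _ _)
        nlinarith
      refine (abs_sub _ _).trans ?_
      linarith
    refine ⟨fun x => ?_, fun b => ?_, fun b => ?_⟩
    · split_ifs with h
      · have h1 := hN1 x
        have h2 : |K2 - N x| ≤ K2 + 4 * (X.d : ℝ) ^ (49 / 100 : ℝ) := by
          refine (abs_sub _ _).trans ?_
          rw [abs_of_nonneg hK]
          linarith
        refine h2.trans ?_
        have h3 : (X.d : ℝ) ^ (49 / 100 : ℝ) =
            (X.d : ℝ) ^ (1 / 2 : ℝ) * (X.d : ℝ) ^ (-(1 / 100) : ℝ) := by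
          rw [← Real.rpow_add hdp]
          norm_num
        have h4 : (1 : ℝ) ≤ (X.d : ℝ) ^ (49 / 100 : ℝ) := Real.one_le_rpow hd1 (by norm_num)
        have h5 := f3.trans_le (min_le_right _ _)
        rw [lt_div_iff₀ (by positivity)] at h5
        have h6 : (0 : ℝ) < (X.d : ℝ) ^ (1 / 2 : ℝ) := by positivity
        have h7 : K2 + 4 * (X.d : ℝ) ^ (49 / 100 : ℝ) ≤ (K2 + 5) * (X.d : ℝ) ^ (49 / 100 : ℝ) := by
          have h9 : K2 * 1 ≤ K2 * (X.d : ℝ) ^ (49 / 100 : ℝ) := mul_le_mul_of_nonneg_left h4 hK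
          have h10 : (K2 + 5) * (X.d : ℝ) ^ (49 / 100 : ℝ) = K2 * (X.d : ℝ) ^ (49 / 100 : ℝ) +
            4 * (X.d : ℝ) ^ (49 / 100 : ℝ) + (X.d : ℝ) ^ (49 / 100 : ℝ) := by ring
          rw [h10]
          linarith
        refine h7.trans ?_
        rw [h3]
        have h8 : (K2 + 5) * ((X.d : ℝ) ^ (1 / 2 : ℝ) * (X.d : ℝ) ^ (-(1 / 100) : ℝ)) =
            (X.d : ℝ) ^ (1 / 2 : ℝ) * ((X.d : ℝ) ^ (-(1 / 100) : ℝ) * (K2 + 5)) := by ring
        rw [h8]
        exact (mul_le_mul_of_nonneg_left h5.le h6.le).trans (mul_one _).le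
      · rw [abs_zero]
        positivity
    · have h1 := key (Sum.inl b)
      have h2 : ∑ x with X.fr x ∧ ¬ X.h3 c x ∧ X.pb c x b,
          (if X.fr x then K2 - N x else 0) * (X.n x b / X.fx c x) =
          ∑ x, X.rr c (Sum.inl b) x * (if X.fr x then K2 - N x else 0) := by
        rw [sum_filter]
        refine sum_congr rfl fun x _ => ?_
        rw [rr_inl]
        by_cases h3 : X.fr x ∧ ¬ X.h3 c x ∧ X.pb c x b
        · rw [if_pos h3, if_pos h3, mul_comm]
        · rw [if_neg h3, if_neg h3, zero_mul]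
      rw [h2]
      exact h1
    · have h1 := key (Sum.inr b)
      have h2 : ∑ x with X.h3 c x, (if X.fr x then K2 - N x else 0) *
          (((X.sc c x ∩ blk X.bl b).card : ℝ) / ((X.sc c x).card : ℝ)) =
          ∑ x, X.rr c (Sum.inr b) x * (if X.fr x then K2 - N x else 0) := by
        rw [sum_filter]
        refine sum_congr rfl fun x _ => ?_
        rw [rr_inr]
        by_cases h3 : X.h3 c x
        · rw [if_pos h3, if_pos h3, mul_comm]
        · rw [if_neg h3, if_neg h3, zero_mul]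
      rw [h2]
      exact h1

end Pool.Agent.Work.MP_db9399_ts.helper15
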