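import Pool.Agent.Work.MP_db9399_as_helper75.ROUND
import Pool.Agent.Work.MP_db9399_ts_helper15.OFH

/-!
# MP_db9399, TSPLIT, block SWP: surplus edges into the class `5` (helper15)
-/

set_option autoImplicit false
set_option linter.unusedSectionVars false

namespace Pool.Agent.Work.MP_db9399_ts.helper15

open Finset Classical Filter
open Pool.Agent.Work.MP_db9399_all (nb)
open Pool.Agent.Work.MP_db9399_clj.helper75 (OO blk nB eE mem_nb dcount mem_blk mem_OO eE_nonneg)
open Pool.Agent.Work.MP_db9399_ts.helper75 (th_O h3_facts)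

universe u

variable {W B : Type u} [Fintype W] [Fintype B]

/-- the edges from vertices of type `fr` to light vertices in the classes `≠ 5` -/
def Eg (X : Dat W B) (cl : W → W → Fin 6) : Type u :=
  {p : W × W // X.fr p.1 ∧ X.LE p.1 p.2 ∧ cl p.1 p.2 ≠ 5}

noncomputable instance (X : Dat W B) (cl : W → W → Fin 6) : Fintype (Eg X cl) := by
  unfold Eg
  infer_instance

theorem LE_light {X : Dat W B} {v w : W} (h : X.LE v w) (hv : X.bl v = none) : X.bl w ≠ none :=
  fun h1 => h.2 ⟨hv, h1⟩

theorem LE_symm {X : Dat W B} {v w : W} (h : X.LE v w) : X.LE w v :=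
  ⟨h.1.symm, fun h1 => h.2 ⟨h1.2, h1.1⟩⟩

/-- number of the edges in a class at a vertex -/
theorem card_Eg (X : Dat W B) (cl : W → W → Fin 6) (x : W) (j : Fin 6) (hx : X.fr x)
    (hj : j ≠ 5) : (univ.filter fun e : Eg X cl => (e.1.1, cl e.1.1 e.1.2) = (x, j)).card =
      X.dl cl j x := by
  unfold Dat.dl
  refine card_bij (fun e _ => e.1.2) ?_ ?_ ?_
  · intro e he
    have h := (mem_filter.1 he).2
    rw [Prod.mk.injEq] at h
    refine mem_filter.2 ⟨mem_univ _, ?_, ?_⟩
    · rw [← h.1]
      exact e.2.2.1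
    · rw [← h.1]
      exact h.2
  · intro e he e' he' h
    have h1 := (mem_filter.1 he).2
    have h2 := (mem_filter.1 he').2
    rw [Prod.mk.injEq] at h1 h2
    exact Subtype.ext (Prod.ext (h1.1.trans h2.1.symm) h)
  · intro w hw
    rw [mem_filter] at hw
    refine ⟨⟨(x, w), hx, hw.2.1, by rw [hw.2.2]; exact hj⟩, ?_, rfl⟩
    refine mem_filter.2 ⟨mem_univ _, ?_⟩
    show (x, cl x w) = (x, j)
    rw [hw.2.2]

theorem stmt_SWP : Stmt_SWP.{u} := by
  intro M C ε σ1 K3 hC hε hσ hK
  have hC0 : 0 < C := by linarith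
  refine ⟨min 1 (ε * σ1 / (2 * C * (K3 + 1))), lt_min one_pos (by positivity), ?_⟩
  intro c hc hc1
  set ζ0 := min 1 (ε * σ1 / (2 * C * (K3 + 1))) with hζ0
  have hζ : 0 < ζ0 := lt_min one_pos (by positivity)
  have hζ2 : 2 * C * (K3 + 1) * ζ0 ≤ ε * σ1 := by
    have h := min_le_right 1 (ε * σ1 / (2 * C * (K3 + 1)))
    rw [← hζ0, le_div_iff₀ (by positivity)] at h
    linarith
  obtain ⟨d0, hd0⟩ := eventually_atTop.1
    ((tendsto_natCast_atTop_atTop (R := ℝ)).eventually
      (eventually_ge_atTop (max 1 (max (K3 / σ1) (2 / ε)))))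
  refine ⟨d0, ?_⟩
  intro W B _ _ X cl s hd hE hsy hs hdl
  have f0 := hd0 X.d hd
  have f1 : (1 : ℝ) ≤ X.d := (le_max_left _ _).trans f0
  have f2 : K3 / σ1 ≤ X.d := ((le_max_left _ _).trans (le_max_right _ _)).trans f0
  have f3 : 2 / ε ≤ X.d := ((le_max_right _ _).trans (le_max_right _ _)).trans f0
  have hdp : (0 : ℝ) < X.d := by linarith
  rw [div_le_iff₀ hσ] at f2
  rw [div_le_iff₀ hε] at f3
  -- the fractional choice
  set α : Eg X cl → W × Fin 6 := fun e => (e.1.1, cl e.1.1 e.1.2) with hα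
  set β : Eg X cl → Option B := fun e => X.bl e.1.2 with hβ
  set y : Eg X cl → ℝ := fun e => (s (cl e.1.1 e.1.2) e.1.1 : ℝ) /
    X.dl cl (cl e.1.1 e.1.2) e.1.1 with hy
  obtain ⟨z, z1, z2, z3⟩ := Pool.Agent.Work.MP_db9399_as_helper75.round_bip α β y
  have hdlp : ∀ e : Eg X cl, 0 < (X.dl cl (cl e.1.1 e.1.2) e.1.1 : ℝ) := by
    intro e
    refine lt_of_lt_of_le ?_ (hdl e.1.1 _ e.2.1 e.2.2.2)
    positivity
  have hy0 : ∀ e, 0 ≤ y e := fun e => by positivity
  have hyK : ∀ e, y e ≤ K3 / (σ1 * X.d) := by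
    intro e
    have h1 := hs e.1.1 (cl e.1.1 e.1.2) e.2.1
    have h2 := hdl e.1.1 _ e.2.1 e.2.2.2
    have h3 : (0 : ℝ) ≤ s (cl e.1.1 e.1.2) e.1.1 := Nat.cast_nonneg _
    have h4 : 0 < σ1 * X.d := by positivity
    exact div_le_div₀ hK h1 h4 h2
  have hy1 : ∀ e, y e ≤ 1 := by
    intro e
    refine (hyK e).trans ?_
    rw [div_le_one (by positivity)]
    linarith
  have z01 : ∀ e, z e = 0 ∨ z e = 1 := by
    intro e
    have h1 := (z1 e).1
    have h2 := (z1 e).2
    have h3 : 0 ≤ ⌊y e⌋ := Int.floor_nonneg.mpr (hy0 e)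
    have h4 : ⌈y e⌉ ≤ 1 := Int.ceil_le.mpr (by exact_mod_cast hy1 e)
    omega
  have zc : ∀ (P : Eg X cl → Prop) [DecidablePred P], ∑ e with P e, z e =
      ((univ.filter fun e => P e ∧ z e = 1).card : ℤ) := by
    intro P _
    rw [card_eq_sum_ones, ← filter_filter, sum_filter (p := fun e => z e = 1)]
    push_cast
    refine sum_congr rfl fun e _ => ?_
    rcases z01 e with h | h
    · rw [h]; simp
    · rw [h]; simp
  -- at the vertices
  have hA : ∀ x j, X.fr x → j ≠ 5 →
      (univ.filter fun e : Eg X cl => α e = (x, j) ∧ z e = 1).card = s j x := by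
    intro x j hx hj
    have h1 : ∑ e with α e = (x, j), y e = (s j x : ℝ) := by
      have h2 : ∀ e ∈ univ.filter (fun e : Eg X cl => α e = (x, j)), y e =
          (s j x : ℝ) / X.dl cl j x := by
        intro e he
        have h := (mem_filter.1 he).2
        rw [hα, Prod.mk.injEq] at h
        simp only [hy]
        rw [h.2, h.1]
      rw [sum_congr rfl h2, sum_const, nsmul_eq_mul, card_Eg X cl x j hx hj]
      have h3 : (0 : ℝ) < X.dl cl j x := lt_of_lt_of_le (by positivity) (hdl x j hx hj)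
      field_simp
    have h2 := z2 (x, j)
    rw [h1, Int.floor_natCast, Int.ceil_natCast, zc] at h2
    have h3 : ((univ.filter fun e : Eg X cl => α e = (x, j) ∧ z e = 1).card : ℤ) = s j x :=
      le_antisymm h2.2 h2.1
    exact_mod_cast h3
  -- the chosen pairs
  set Ch : W → W → Prop := fun v w => ∃ e : Eg X cl, e.1 = (v, w) ∧ z e = 1 with hCh
  have ChF : ∀ v w, Ch v w → X.fr v ∧ X.LE v w ∧ cl v w ≠ 5 ∧ X.bl w ≠ none := by
    rintro v w ⟨e, he, _⟩
    have h := e.2
    rw [he] at h
    exact ⟨h.1, h.2.1, h.2.2, LE_light h.2.1 h.1.1⟩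
  set cl' : W → W → Fin 6 := fun v w => if Ch v w ∨ Ch w v then 5 else cl v w with hcl'
  have hne : ∀ v w, cl' v w ≠ cl v w → (Ch v w ∨ Ch w v) := by
    intro v w h
    by_contra hcon
    apply h
    simp only [hcl']
    rw [if_neg hcon]
  have hne' : ∀ v w, (Ch v w ∨ Ch w v) → cl' v w ≠ cl v w := by
    intro v w h
    simp only [hcl']
    rw [if_pos h]
    rcases h with h | h
    · exact (ChF v w h).2.2.1.symm
    · rw [hsy v w]
      exact (ChF w v h).2.2.1.symm
  -- at a vertex of type `fr` the changed edges are the chosen ones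
  have hfr : ∀ x v, X.fr x → ((Ch x v ∨ Ch v x) ↔ Ch x v) := by
    intro x v hx
    refine ⟨fun h => ?_, Or.inl⟩
    rcases h with h | h
    · exact h
    · exact absurd hx.1 (ChF v x h).2.2.2
  have hcnt : ∀ x j, X.fr x → j ≠ 5 →
      (univ.filter fun w => Ch x w ∧ cl x w = j).card = s j x := by
    intro x j hx hj
    rw [← hA x j hx hj]
    symm
    refine card_bij (fun e _ => e.1.2) ?_ ?_ ?_
    · intro e he
      have h := (mem_filter.1 he).2
      rw [hα, Prod.mk.injEq] at h
      refine mem_filter.2 ⟨mem_univ _, ⟨e, ?_, h.2⟩, ?_⟩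
      · rw [← h.1.1]
      · rw [← h.1.1]
        exact h.1.2
    · intro e he e' he' h
      have h1 := (mem_filter.1 he).2
      have h2 := (mem_filter.1 he').2
      rw [hα, Prod.mk.injEq] at h1 h2
      exact Subtype.ext (Prod.ext (h1.1.1.trans h2.1.1.symm) h)
    · intro w hw
      obtain ⟨⟨e, he, hz⟩, hj2⟩ := (mem_filter.1 hw).2
      refine ⟨e, mem_filter.2 ⟨mem_univ _, ?_, hz⟩, by rw [he]⟩
      rw [hα]
      show (e.1.1, cl e.1.1 e.1.2) = (x, j)
      rw [he, hj2]
  refine ⟨cl', ?_, ?_, ?_, ?_, ?_⟩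
  · intro v w
    simp only [hcl']
    rw [hsy v w]
    by_cases h : Ch v w ∨ Ch w v
    · rw [if_pos h, if_pos h.symm]
    · rw [if_neg h, if_neg fun h1 => h h1.symm]
  · intro v w h
    have h1 := hne v w h
    refine ⟨?_, ?_⟩
    · simp only [hcl']
      rw [if_pos h1]
    · rcases h1 with h1 | h1
      · exact Or.inl ⟨(ChF v w h1).1, (ChF v w h1).2.2.2⟩
      · exact Or.inr ⟨(ChF w v h1).1, (ChF w v h1).2.2.2⟩
  · intro x j hx hj
    rw [← hcnt x j hx hj]
    unfold Dat.dl
    rw [← card_union_of_disjoint]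
    · congr 1
      ext w
      rw [mem_union, mem_filter, mem_filter, mem_filter]
      constructor
      · rintro (⟨_, h1, h2⟩ | ⟨_, h1, h2⟩)
        · refine ⟨mem_univ _, h1, ?_⟩
          by_contra h3
          have h4 : cl' x w ≠ cl x w := fun h4 => h3 (h4 ▸ h2)
          have h5 : cl' x w = 5 := by
            simp only [hcl']
            rw [if_pos (hne x w h4)]
          exact hj (h2.symm.trans h5)
        · exact ⟨mem_univ _, (ChF x w h1).2.1, h2⟩
      · rintro ⟨_, h1, h2⟩
        by_cases h3 : Ch x w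
        · exact Or.inr ⟨mem_univ _, h3, h2⟩
        · left
          refine ⟨mem_univ _, h1, ?_⟩
          simp only [hcl']
          rw [if_neg fun h4 => h3 ((hfr x w hx).1 h4)]
          exact h2
    · rw [disjoint_left]
      intro w h1 h2
      have h3 := (mem_filter.1 h1).2.2
      have h4 := (mem_filter.1 h2).2.1
      have h5 : cl' x w = 5 := by
        simp only [hcl']
        rw [if_pos (Or.inl h4)]
      exact hj (h3.symm.trans h5)
  · intro x hx
    have h1 : univ.filter (fun v => cl' x v ≠ cl x v) ⊆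
        (univ.filter fun j : Fin 6 => j ≠ 5).biUnion
          fun j => univ.filter fun w => Ch x w ∧ cl x w = j := by
      intro v hv
      have h2 := (hfr x v hx).1 (hne x v (mem_filter.1 hv).2)
      exact mem_biUnion.2 ⟨cl x v, mem_filter.2 ⟨mem_univ _, (ChF x v h2).2.2.1⟩,
        mem_filter.2 ⟨mem_univ _, h2, rfl⟩⟩
    have h2 : ((univ.filter fun v => cl' x v ≠ cl x v).card : ℝ) ≤
        ∑ j : Fin 6 with j ≠ 5, ((univ.filter fun w => Ch x w ∧ cl x w = j).card : ℝ) := by
      exact_mod_cast (card_le_card h1).trans card_biUnion_le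
    refine h2.trans ?_
    have h3 : ∑ j : Fin 6 with j ≠ 5, ((univ.filter fun w => Ch x w ∧ cl x w = j).card : ℝ) ≤
        ∑ _j : Fin 6 with _j ≠ 5, K3 := by
      refine sum_le_sum fun j hj => ?_
      rw [hcnt x j hx (mem_filter.1 hj).2]
      exact hs x j hx
    refine h3.trans ?_
    rw [sum_const, nsmul_eq_mul]
    have h4 : (univ.filter fun j : Fin 6 => j ≠ 5).card = 5 := by decide
    rw [h4]
    norm_num
  · intro b
    -- the changed edges at the block are the chosen ones
    have h1 : (univ.filter fun p : W × W => X.bl p.1 = some b ∧ X.LE p.1 p.2 ∧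
        cl' p.1 p.2 ≠ cl p.1 p.2).card ≤
        (univ.filter fun e : Eg X cl => β e = some b ∧ z e = 1).card := by
      refine card_le_card_of_surjOn (fun e => (e.1.2, e.1.1)) ?_
      rintro ⟨v, x⟩ hp
      have h2 := (mem_filter.1 (mem_coe.1 hp)).2
      simp only at h2
      obtain ⟨h3, h4, h5⟩ := h2
      rcases hne v x h5 with h6 | h6
      · have h7 := (ChF v x h6).1.1
        rw [h3] at h7
        exact absurd h7 (Option.some_ne_none _)
      · obtain ⟨e, he, hz⟩ := h6
        refine ⟨e, mem_coe.2 (mem_filter.2 ⟨mem_univ _, ?_, hz⟩), ?_⟩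
        · simp only [hβ]
          rw [he]
          exact h3
        · simp only
          rw [he]
    have h2 := (z3 (some b)).2
    rw [zc] at h2
    have h3 : ∑ e with β e = some b, y e ≤ ζ0 * C * X.d ^ 2 * (K3 / (σ1 * X.d)) := by
      have h4 : ∑ e with β e = some b, y e ≤
          ((univ.filter fun e : Eg X cl => β e = some b).card : ℝ) * (K3 / (σ1 * X.d)) := by
        rw [← nsmul_eq_mul]
        exact sum_le_card_nsmul _ _ _ fun e _ => hyK e
      refine h4.trans ?_
      refine mul_le_mul_of_nonneg_right ?_ (by positivity)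
      refine le_trans ?_ (sum_n hE hζ.le b)
      have h5 : (univ.filter fun e : Eg X cl => β e = some b).card ≤
          ∑ x ∈ OO X.bl, (nb X.G x ∩ blk X.bl b).card := by
        rw [← card_sigma]
        refine card_le_card_of_injOn (fun e => (⟨e.1.1, e.1.2⟩ : Σ _ : W, W)) ?_ ?_
        · intro e he
          have h6 := (mem_filter.1 (mem_coe.1 he)).2
          refine mem_coe.2 (mem_sigma.2 ⟨mem_OO.2 e.2.1.1, ?_⟩)
          refine mem_inter.2 ⟨mem_nb.2 ?_, mem_blk.2 h6⟩
          exact e.2.2.1.1.1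
        · intro e _ e' _ h
          simp only [Sigma.mk.injEq, heq_eq_eq] at h
          exact Subtype.ext (Prod.ext h.1 h.2)
      unfold Dat.n nB
      exact_mod_cast h5
    have h4 : ((univ.filter fun e : Eg X cl => β e = some b ∧ z e = 1).card : ℝ) ≤
        ∑ e with β e = some b, y e + 1 := by
      have h5 : ((univ.filter fun e : Eg X cl => β e = some b ∧ z e = 1).card : ℝ) ≤
          (⌈∑ e with β e = some b, y e⌉ : ℝ) := by exact_mod_cast h2
      exact h5.trans (Int.ceil_lt_add_one _).le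
    have h5 : ζ0 * C * X.d ^ 2 * (K3 / (σ1 * X.d)) ≤ ε / 2 * X.d := by
      have h6 : ζ0 * C * X.d ^ 2 * (K3 / (σ1 * X.d)) = (ζ0 * C * K3 / σ1) * X.d := by
        field_simp
      rw [h6]
      refine mul_le_mul_of_nonneg_right ?_ hdp.le
      rw [div_le_iff₀ hσ]
      have : 0 ≤ C * ζ0 := by positivity
      nlinarith
    have h6 : ((univ.filter fun p : W × W => X.bl p.1 = some b ∧ X.LE p.1 p.2 ∧
        cl' p.1 p.2 ≠ cl p.1 p.2).card : ℝ) ≤
        ((univ.filter fun e : Eg X cl => β e = some b ∧ z e = 1).card : ℝ) := by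
      exact_mod_cast h1
    linarith

end Pool.Agent.Work.MP_db9399_ts.helper15
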